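import Pool.Agent.helper7.UL.Spec

/-!
# Row ul:PRT (MP_62ffdf_lc)

Periodicity of the Ulam set above a bound.
-/

set_option autoImplicit false

namespace Pool.Agent.UL

open Finset

lemma PRT_Sf {R o W S P : ℕ} (hW : 1 ≤ W)
    (hper : ∀ j < o, ∀ A, S ≤ A → cell R o j (A + P) = cell R o j A) {j : ℕ} (hj : j < o) {i : ℤ}
    (hi : (S : ℤ) * W ≤ i) : Sf R o W j (i + P * W) = Sf R o W j i := by
  have hWz : (0 : ℤ) < W := by exact_mod_cast hW
  have hi0 : (0 : ℤ) ≤ i := le_trans (by positivity) hi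
  have hd : (S : ℤ) ≤ (i + R) / W := by
    rw [Int.le_ediv_iff_mul_le hWz]
    have : (0 : ℤ) ≤ R := by positivity
    linarith
  have h1 : (i + P * W + R) / (W : ℤ) = (i + R) / W + P := by
    have h2 : i + (P : ℤ) * W + R = (i + R) + P * W := by ring
    rw [h2, Int.add_mul_ediv_right _ _ hWz.ne']
  have hm : mA R W (i + P * W) = mA R W i + P := by
    unfold mA
    rw [h1]
    omega
  have hmS : S ≤ mA R W i := by
    unfold mA
    omega
  have hPW : (0 : ℤ) ≤ (P : ℤ) * W := by positivity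
  unfold Sf
  rw [hm, hper j hj _ hmS]
  have h3 : i + (P : ℤ) * W - ((mA R W i + P : ℕ) : ℤ) * W = i - (mA R W i : ℕ) * (W : ℤ) := by
    push_cast
    ring
  rw [h3]
  have h4 : decide (0 ≤ i + (P : ℤ) * W) = decide (0 ≤ i) := by
    rw [decide_eq_true hi0, decide_eq_true (add_nonneg hi0 hPW)]
  rw [h4]

lemma PRT_T (h1 : CRD_stmt) {R o W S P : ℕ} (ho : 1 ≤ o) (hW : 1 ≤ W) (hc : Nat.Coprime o (W - 1))
    (hper : ∀ j < o, ∀ A, S ≤ A → cell R o j (A + P) = cell R o j A) {m : ℕ}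
    (hm : o * (S + 5) * W ≤ m) : m ∈ Tset R o W ↔ m + o * P * W ∈ Tset R o W := by
  obtain ⟨c1, c2⟩ := h1 o W ho hW hc
  obtain ⟨j, hj, i, hji⟩ := c1 (m : ℤ)
  have hoz : (0 : ℤ) < o := by exact_mod_cast ho
  have hWz : (1 : ℤ) ≤ W := by exact_mod_cast hW
  have hjz : (j : ℤ) + 1 ≤ o := by exact_mod_cast hj
  have hj0 : (0 : ℤ) ≤ j := by positivity
  have hi : (S : ℤ) * W ≤ i := by
    by_contra hcon
    push Not at hcon
    have hmz : (o : ℤ) * (S + 5) * W ≤ m := by exact_mod_cast hm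
    have e1 : (o : ℤ) * i ≤ o * (S * W) := mul_le_mul_of_nonneg_left hcon.le hoz.le
    have e2 : ((W : ℤ) - 1) * j ≤ ((W : ℤ) - 1) * o :=
      mul_le_mul_of_nonneg_left (by linarith) (by linarith)
    have e3 : (0 : ℤ) < (o : ℤ) * W := by positivity
    nlinarith
  constructor
  · rintro ⟨j', hj', i', hS, hm'⟩
    obtain ⟨rfl, rfl⟩ := c2 j' hj' j hj i' i (by rw [← hm', ← hji])
    refine ⟨j', hj', i' + P * W, ?_, ?_⟩
    · rw [PRT_Sf hW hper hj' hi]
      exact hS
    · push_cast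
      rw [hm']
      ring
  · rintro ⟨j', hj', i', hS, hm'⟩
    have e4 : ((W : ℤ) - 1) * j' + o * i' = ((W : ℤ) - 1) * j + o * (i + P * W) := by
      rw [← hm']
      push_cast
      rw [hji]
      ring
    obtain ⟨rfl, rfl⟩ := c2 j' hj' j hj i' _ e4
    refine ⟨j', hj', i, ?_, hji⟩
    rw [← PRT_Sf hW hper hj' hi]
    exact hS

theorem PRT (h1 : CRD_stmt) : PRT_stmt := by
  intro R o W S P hT hRW hoW hc hper x hx
  have ho7 := hT.ho
  have hW : 1 ≤ W := by omega
  have ho : 1 ≤ o := by omega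
  -- no even elements above the bound
  have hE : ∀ y, 2 * o * (S + 5) * W + o ≤ y → ¬ ∃ δ ∈ Del o (W - 1), y = 2 * δ := by
    rintro y hy ⟨δ, hδ, rfl⟩
    have hδ2 : δ ≤ 2 * W * o := by
      unfold Del at hδ
      rw [Finset.mem_insert, Finset.mem_image] at hδ
      rcases hδ with h | ⟨k, hk, hk2⟩
      · rw [h, Nat.sub_add_cancel hW]
      · rw [Finset.mem_range, Nat.sub_add_cancel hW] at hk
        have e1 : k * o ≤ W * o := Nat.mul_le_mul_right _ hk.le
        have e2 : W * 1 ≤ W * o := Nat.mul_le_mul_left _ ho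
        have e3 : 2 * W * o = W * o + W * o := by ring
        omega
    have e4 : 2 * o * (S + 5) * W = 2 * (o * S * W) + 10 * (W * o) := by ring
    have e5 : 2 * W * o = 2 * (W * o) := by ring
    have e6 : W * 1 ≤ W * o := Nat.mul_le_mul_left _ ho
    omega
  have hV : ∀ y, 2 * o * (S + 5) * W + o ≤ y →
      (y ∈ Vset o (W - 1) (Tset R o W) ↔ ∃ m ∈ Tset R o W, y = o + 2 * m) := by
    intro y hy
    constructor
    · rintro (h | h)
      · exact absurd h (hE y hy)
      · exact h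
    · intro h
      exact Or.inr h
  rw [hV x hx, hV (x + 2 * (o * P * W)) (by omega)]
  constructor
  · rintro ⟨m, hm, rfl⟩
    have hm2 : o * (S + 5) * W ≤ m := by
      have e1 : 2 * o * (S + 5) * W = 2 * (o * (S + 5) * W) := by ring
      omega
    exact ⟨m + o * P * W, (PRT_T h1 ho hW hc hper hm2).1 hm, by ring⟩
  · rintro ⟨m', hm', he⟩
    have e1 : 2 * o * (S + 5) * W = 2 * (o * (S + 5) * W) := by ring
    have hm2 : o * (S + 5) * W ≤ m' - o * P * W := by omega
    have hm3 : m' - o * P * W + o * P * W = m' := by omega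
    refine ⟨m' - o * P * W, ?_, by omega⟩
    rw [PRT_T h1 ho hW hc hper hm2, hm3]
    exact hm'

end Pool.Agent.UL
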