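import Pool.Agent.helper7.UL.Spec

/-!
# ul:REC
-/

set_option autoImplicit false

namespace Pool.Agent.UL

open Finset

theorem REC_neg {R o W j : ℕ} {i : ℤ} (hi : i < 0) : Sf R o W j i = false := by
  unfold Sf
  have h : ¬ (0 : ℤ) ≤ i := by omega
  simp [h]

theorem REC_wv0 (R : ℕ) (B : ℤ) : wv R 0 B = false := by
  unfold wv
  simp

theorem REC_mg0 (R : ℕ) : Mg R 0 := by
  refine ⟨by positivity, ?_, ?_, ?_, ?_⟩ <;> simp

theorem REC_sh0 (R : ℕ) : sh R 0 = 0 := by
  unfold sh
  simp

theorem REC_bit0 {n : ℕ} (h : n % 2 = 0) : n.testBit 0 = false := by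
  rw [Nat.testBit_zero]
  simp [h]

theorem REC_first0 {R o : ℕ} (hT : Tab R o) (j : ℕ) (hj : j < o) :
    (cell R o j 0).testBit 0 = false := by
  have h1 := hT.hfirst
  unfold first at h1
  simp only [Bool.and_eq_true, List.all_eq_true, List.mem_range, beq_iff_eq] at h1
  have h2 := h1.1.1 j hj
  have h3 : 2 ^ R % 2 = 0 := by
    obtain ⟨r, hr⟩ : ∃ r, R = r + 1 := ⟨R - 1, by have := hT.hR; omega⟩
    rw [hr, pow_succ]
    omega
  have h4 : 2 ^ (R + 4) = 16 * 2 ^ R := by rw [pow_add]; ring
  rw [h2]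
  apply REC_bit0
  split_ifs
  · exact h3
  · rw [h4]
    omega

theorem REC_wv_mid {R c : ℕ} {B : ℤ} (h1 : -(R : ℤ) ≤ B) (h2 : B ≤ 3) :
    wv R c B = c.testBit (B + R).toNat := by
  unfold wv
  rw [if_neg (by omega), if_neg (by omega)]

theorem REC_wv_right {R c : ℕ} {B : ℤ} (h2 : 3 < B) : wv R c B = c.testBit (R + 3) := by
  unfold wv
  rw [if_neg (by omega), if_pos h2]

/-- the shifted column `o - 1` -/
theorem REC_shift (h2 : SHW_stmt) (h4 : EXT_stmt) {R o W : ℕ} (hT : Tab R o) (hW : R + 10 ≤ W)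
    (A : ℕ) (B : ℤ) (hB1 : -(R : ℤ) ≤ B) (hB2 : B < (W : ℤ) - R) :
    Sf R o W (o - 1) (A * W + (B + 1)) = wv R (sh R (cell R o (o - 1) A)) B := by
  have ho : o - 1 < o := by have := hT.ho; omega
  have hsh := h2 R (cell R o (o - 1) A) hT.hR (hT.hmarg _ ho A)
  rw [hsh.2.2.1]
  by_cases h : B + 1 < (W : ℤ) - R
  · exact h4 R o W hT hW (o - 1) ho A (B + 1) (by omega) h
  · have hB : B + 1 = (W : ℤ) - R := by omega
    have h5 : (A : ℤ) * W + (B + 1) = ((A + 1 : ℕ) : ℤ) * W + (-(R : ℤ)) := by
      rw [hB]; push_cast; ring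
    rw [h5, h4 R o W hT hW (o - 1) ho (A + 1) (-(R : ℤ)) (by omega) (by omega),
      REC_wv_mid le_rfl (by omega), REC_wv_right (by omega), hT.hcont _ ho A]
    congr 1
    omega

/-- the words before the cell `(j, A)` -/
theorem REC_prev (h1 : STP_stmt) (h2 : SHW_stmt) (h3 : ROW_stmt) (h4 : EXT_stmt) {R o W : ℕ}
    (hT : Tab R o) (hW : R + 10 ≤ W) (j A : ℕ) (hj : j < o) (hjA : ¬(j = 0 ∧ A = 0)) :
    ∃ cm c0 c2 : ℕ, cell R o j A = step R cm c0 c2 ∧ Mg R cm ∧ Mg R c0 ∧ c2 < 2 ^ (R + 4) ∧
      cm.testBit (R + 3) = c0.testBit 0 ∧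
      (∀ B : ℤ, -R ≤ B → B < W - R → colp R o W j (((A : ℤ) - 1) * W + B) = wv R cm B) ∧
      (∀ B : ℤ, -R ≤ B → B < W - R → colp R o W j ((A : ℤ) * W + B) = wv R c0 B) ∧
      (∀ B : ℤ, -R ≤ B → B < W - R → Sf R o W j ((A : ℤ) * W + B - 2 * W) = wv R c2 B) := by
  have ho7 := hT.ho
  have hR := hT.hR
  obtain ⟨-, -, -, -, r5, r6, r7⟩ := h3 R o (by omega)
  have hmg : ∀ j' < o, ∀ A', Mg R (cell R o j' A') := fun j' hj' A' =>
    (h2 R _ hR (hT.hmarg j' hj' A')).1
  -- the word two macro times before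
  have hc2 : ∀ B : ℤ, -R ≤ B → B < W - R → Sf R o W j ((A : ℤ) * W + B - 2 * W)
      = wv R (if A ≤ 1 then 0 else cell R o j (A - 2)) B := by
    intro B hB1 hB2
    by_cases hA : A ≤ 1
    · rw [if_pos hA, REC_wv0]
      apply REC_neg
      have : (A : ℤ) ≤ 1 := by exact_mod_cast hA
      nlinarith
    · rw [if_neg hA]
      obtain ⟨A', rfl⟩ : ∃ A', A = A' + 2 := ⟨A - 2, by omega⟩
      have h5 : ((A' + 2 : ℕ) : ℤ) * W + B - 2 * W = (A' : ℤ) * W + B := by push_cast; ring
      rw [h5, h4 R o W hT hW j hj A' B (by omega) hB2]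
      rfl
  have hc2lt : (if A ≤ 1 then 0 else cell R o j (A - 2)) < 2 ^ (R + 4) := by
    split_ifs
    · positivity
    · exact (hmg j hj _).1
  rcases Nat.eq_zero_or_pos j with hj0 | hj0
  · -- column 0
    subst hj0
    obtain ⟨A', rfl⟩ : ∃ A', A = A' + 1 := ⟨A - 1, by
      have : A ≠ 0 := fun h => hjA ⟨rfl, h⟩
      omega⟩
    have hlast : o - 1 < o := by omega
    have hg : ∀ i : ℤ, colp R o W 0 i = Sf R o W (o - 1) (i - ((W : ℤ) - 1)) := fun i => by
      unfold colp
      rw [if_pos rfl]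
    refine ⟨sh R (if A' = 0 then 0 else cell R o (o - 1) (A' - 1)), sh R (cell R o (o - 1) A'),
      _, ?_, ?_, ?_, hc2lt, ?_, ?_, ?_, hc2⟩
    · rw [r6 A']
      congr 1
      by_cases h : A' = 0
      · rw [if_pos h, if_pos (by omega)]
      · rw [if_neg h, if_neg (by omega)]
        rfl
    · split_ifs
      · rw [REC_sh0]; exact REC_mg0 R
      · exact (h2 R _ hR (hT.hmarg _ hlast _)).2.1
    · exact (h2 R _ hR (hT.hmarg _ hlast _)).2.1
    · have e1 := (h2 R _ hR (hT.hmarg _ hlast A')).2.2.2.1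
      rw [e1]
      by_cases h : A' = 0
      · rw [if_pos h, REC_sh0, h, REC_first0 hT _ hlast]
        simp
      · rw [if_neg h]
        obtain ⟨A'', rfl⟩ : ∃ A'', A' = A'' + 1 := ⟨A' - 1, by omega⟩
        have e2 := (h2 R _ hR (hT.hmarg _ hlast A'')).2.2.2.2
        show (sh R (cell R o (o - 1) A'')).testBit (R + 3) = _
        rw [e2]
        exact hT.hcont _ hlast A''
    · intro B hB1 hB2
      rw [hg]
      by_cases h : A' = 0
      · rw [if_pos h, REC_sh0, REC_wv0]
        apply REC_neg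
        rw [h]
        push_cast
        linarith
      · rw [if_neg h]
        obtain ⟨A'', rfl⟩ : ∃ A'', A' = A'' + 1 := ⟨A' - 1, by omega⟩
        have e3 : (((A'' + 1 + 1 : ℕ) : ℤ) - 1) * W + B - ((W : ℤ) - 1)
            = (A'' : ℤ) * W + (B + 1) := by push_cast; ring
        rw [e3]
        exact REC_shift h2 h4 hT hW A'' B hB1 hB2
    · intro B hB1 hB2
      rw [hg]
      have e3 : ((A' + 1 : ℕ) : ℤ) * W + B - ((W : ℤ) - 1) = (A' : ℤ) * W + (B + 1) := by
        push_cast; ring
      rw [e3]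
      exact REC_shift h2 h4 hT hW A' B hB1 hB2
  · -- column j ≥ 1
    obtain ⟨j', rfl⟩ : ∃ j', j = j' + 1 := ⟨j - 1, by omega⟩
    have hj' : j' < o := by omega
    have hg : ∀ i : ℤ, colp R o W (j' + 1) i = Sf R o W j' i := fun i => by
      unfold colp
      rw [if_neg (by omega)]
      rfl
    refine ⟨if A = 0 then 0 else cell R o j' (A - 1), cell R o j' A, _, ?_, ?_, hmg j' hj' A,
      hc2lt, ?_, ?_, ?_, hc2⟩
    · by_cases h : A = 0
      · subst h
        rw [if_pos rfl, if_pos (by omega)]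
        exact r5 j' hj
      · obtain ⟨A', rfl⟩ : ∃ A', A = A' + 1 := ⟨A - 1, by omega⟩
        rw [if_neg h, r7 A' j' hj]
        show step R (cell R o j' A') (cell R o j' (A' + 1)) _ = step R (cell R o j' A') _ _
        congr 1
        by_cases h' : A' = 0
        · rw [if_pos h', if_pos (by omega)]
        · rw [if_neg h', if_neg (by omega)]
          rfl
    · split_ifs
      · exact REC_mg0 R
      · exact hmg j' hj' _
    · by_cases h : A = 0
      · rw [if_pos h, h, REC_first0 hT _ hj']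
        simp
      · obtain ⟨A', rfl⟩ : ∃ A', A = A' + 1 := ⟨A - 1, by omega⟩
        rw [if_neg h]
        exact hT.hcont j' hj' A'
    · intro B hB1 hB2
      rw [hg]
      by_cases h : A = 0
      · rw [if_pos h, REC_wv0]
        apply REC_neg
        rw [h]
        push_cast
        linarith
      · obtain ⟨A', rfl⟩ : ∃ A', A = A' + 1 := ⟨A - 1, by omega⟩
        rw [if_neg h]
        have e3 : (((A' + 1 : ℕ) : ℤ) - 1) * W + B = (A' : ℤ) * W + B := by push_cast; ring
        rw [e3]
        exact h4 R o W hT hW j' hj' A' B (by omega) hB2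
    · intro B hB1 hB2
      rw [hg]
      exact h4 R o W hT hW j' hj' A B (by omega) hB2

theorem REC (h1 : STP_stmt) (h2 : SHW_stmt) (h3 : ROW_stmt) (h4 : EXT_stmt) (h5 : WIN_stmt) :
    REC_stmt := by
  intro R o W hT hW
  have ho7 := hT.ho
  have hR := hT.hR
  obtain ⟨-, -, -, r4, -, -, -⟩ := h3 R o (by omega)
  have hWpos : (0 : ℤ) < W := by exact_mod_cast (show 0 < W by omega)
  constructor
  · have h6 := h4 R o W hT hW 0 (by omega) 0 0 (by omega) (by omega)
    rw [Nat.cast_zero, zero_mul, zero_add, r4, REC_wv_mid (by omega) (by omega)] at h6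
    rw [h6]
    simp
  · intro j hj i hi hji
    -- the macro time and the offset
    obtain ⟨A, B₀, hiAB, hB1, hB2⟩ : ∃ (A : ℕ) (B₀ : ℤ), i = A * W + B₀ ∧ -(R : ℤ) ≤ B₀ ∧
        B₀ < (W : ℤ) - R := by
      have e1 : 0 ≤ (i + R) / W := Int.ediv_nonneg (by omega) hWpos.le
      have e2 := Int.emod_nonneg (i + R) hWpos.ne'
      have e3 := Int.emod_lt_of_pos (i + R) hWpos
      have e4 := Int.mul_ediv_add_emod (i + R) W
      refine ⟨((i + R) / W).toNat, i - ((i + R) / W) * W, ?_, ?_, ?_⟩
      · rw [Int.toNat_of_nonneg e1]; ring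
      · linarith [mul_comm ((i + R) / (W : ℤ)) (W : ℤ)]
      · linarith [mul_comm ((i + R) / (W : ℤ)) (W : ℤ)]
    by_cases hjA : j = 0 ∧ A = 0
    · -- the first cell
      obtain ⟨rfl, rfl⟩ := hjA
      have hiB : i = B₀ := by rw [hiAB]; simp
      have hipos : 0 < i := by
        rcases lt_or_eq_of_le hi with h | h
        · exact h
        · exact absurd ⟨rfl, h.symm⟩ hji
      have h6 := h4 R o W hT hW 0 (by omega) 0 B₀ (by omega) hB2
      rw [← hiAB, r4] at h6
      have h7 : wv R (2 ^ R) B₀ = false := by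
        by_cases h : B₀ ≤ 3
        · rw [REC_wv_mid hB1 h, Nat.testBit_two_pow]
          simp
          omega
        · rw [REC_wv_right (by omega), Nat.testBit_two_pow]
          simp
      have h8 : ((Ioc (i - W) i).filter fun i' => colp R o W 0 i' = true).card = 0 := by
        rw [Finset.card_eq_zero, Finset.filter_eq_empty_iff]
        intro i' hi'
        have h9 := (Finset.mem_Ioc.1 hi').2
        unfold colp
        rw [if_pos rfl, REC_neg (by omega)]
        simp
      rw [h6, h7, h8, REC_neg (by omega)]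
      simp
    · obtain ⟨cm, c0, c2, hcell, hmm, hm0, hc2lt, hcont, hg1, hg2, hs2⟩ :=
        REC_prev h1 h2 h3 h4 hT hW j A hj hjA
      obtain ⟨s1, s2, s3⟩ := h1 R cm c0 c2 hmm.1 hm0.1 hc2lt
      obtain ⟨w1, w2, w3, w4⟩ := h5 R W cm c0 A (colp R o W j) hR hW hmm hm0 hcont hg1 hg2 B₀ hB1 hB2
      have hSf : Sf R o W j i = wv R (step R cm c0 c2) B₀ := by
        rw [hiAB, h4 R o W hT hW j hj A B₀ (by omega) hB2, hcell]
      rw [hSf, hiAB, hs2 B₀ hB1 hB2]
      by_cases hcm : cm.testBit (R + 3) = true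
      · have h6 := w1 hcm
        rw [s2 hcm, REC_wv0]
        constructor
        · intro h; exact absurd h (by simp)
        · intro h; omega
      · have hcm' : cm.testBit (R + 3) = false := by simpa using hcm
        by_cases hB3 : B₀ ≤ 3
        · rw [w2 hcm' hB3, REC_wv_mid hB1 hB3, REC_wv_mid hB1 hB3]
          exact s3 hcm' _ (by omega)
        · have hB3' : 3 < B₀ := by omega
          rw [REC_wv_right hB3', REC_wv_right hB3']
          have h7 := s3 hcm' (R + 3) (by omega)
          rw [Finset.Ico_self, Finset.filter_empty, Finset.card_empty, zero_add] at h7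
          by_cases hc0 : c0.testBit (R + 3) = true
          · have h8 := w4 hcm' hB3' hc0
            have h9 : 3 ≤ ((range (R + 3 + 1)).filter fun b' => c0.testBit b' = true).card := by
              have h10 : ({R + 1, R + 2, R + 3} : Finset ℕ)
                  ⊆ (range (R + 3 + 1)).filter fun b' => c0.testBit b' = true := by
                intro x hx
                simp only [Finset.mem_insert, Finset.mem_singleton] at hx
                rw [Finset.mem_filter, Finset.mem_range]
                rcases hx with rfl | rfl | rfl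
                · exact ⟨by omega, by rw [hm0.2.2.2.1]; exact hc0⟩
                · exact ⟨by omega, by rw [hm0.2.2.2.2]; exact hc0⟩
                · exact ⟨by omega, hc0⟩
              have h11 : ({R + 1, R + 2, R + 3} : Finset ℕ).card = 3 := by
                rw [Finset.card_insert_of_notMem (by simp), Finset.card_insert_of_notMem (by simp),
                  Finset.card_singleton]
              exact le_trans h11.ge (Finset.card_le_card h10)
            rw [h7]
            constructor
            · intro h; omega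
            · intro h; omega
          · have hc0' : c0.testBit (R + 3) = false := by simpa using hc0
            rw [w3 hcm' hB3' hc0', h7]

end Pool.Agent.UL
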