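import Pool.Agent.helper7.UL.Spec

/-!
# ul:ULM (assembly)
-/

set_option autoImplicit false

namespace Pool.Agent.UL

open Finset

theorem ULM (h1 : ULS_stmt) (h2 : GAP_stmt) (h3 : OEV_stmt) (h4 : RUN_stmt) (h5 : TRC_stmt)
    (h6 : EVN_stmt) (h7 : PRT_stmt) : ULM_stmt := by
  intro R o X S P N h hchk hR hoh hcop
  obtain ⟨hTab, hper, hP, -, -, -⟩ := h4 R o X S P N hchk
  have ho7 : 7 ≤ o := hTab.ho
  have hW : h + 1 - 1 = h := by omega
  obtain ⟨hT0, hTrec⟩ := h5 R o (h + 1) hTab (by omega) (by omega) (by rw [hW]; exact hcop)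
  rw [hW] at hTrec
  obtain ⟨o1, o2, -, -, o5⟩ := h3 o h (Tset R o (h + 1)) hTab.hodd hoh hT0 hTrec
  have hev := h6 R o X S P N (h + 1) hchk (by omega) (by omega) (by rw [hW]; exact hcop)
  rw [hW] at hev
  have hprt := h7 R o (h + 1) S P hTab (by omega) (by omega) (by rw [hW]; exact hcop) hper
  rw [hW] at hprt
  set V : Set ℕ := Vset o h (Tset R o (h + 1)) with hV
  have hrec : ∀ n, 2 * h < n → (n ∈ V ↔ ∃! p, Rep V n p) := by
    intro n hn
    rcases Nat.even_or_odd' n with ⟨k, rfl | rfl⟩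
    · exact hev k (by omega)
    · exact o2 (2 * k + 1) hn (by omega)
  obtain ⟨hinf, huniq⟩ := h1 o (2 * h) V (by omega) (by omega) o1 hrec
  have hD : 0 < 2 * (o * P * (h + 1)) := by positivity
  obtain ⟨k₀, Q, hQ, hgap⟩ := h2 V (2 * o * (S + 5) * (h + 1) + o) (2 * (o * P * (h + 1))) hinf hD hprt
  have hrange : Set.range (Nat.nth (· ∈ V)) = V := Nat.range_nth_of_infinite hinf
  refine ⟨Nat.nth (· ∈ V), max k₀ (2 * o * (S + 5) * (h + 1) + o), Q, 2 * (o * P * (h + 1)),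
    huniq, Nat.nth_strictMono hinf, ?_, hQ, hD, ?_, ?_⟩
  · rw [hrange]
    exact o5
  · intro k hk
    exact hgap k (le_trans (le_max_left _ _) hk)
  · intro x hx
    rw [hrange]
    exact hprt x (le_trans (le_max_right _ _) hx)

end Pool.Agent.UL
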